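import Pool.Agent.X13.TT.Pent

/-!
# Non-negativity of the truncated pentagonal theta series `F_k(q)`

`F_k(q) = (-q;q)_∞ ∑_{j ≥ 0} (-1)^{T_j} q^{G_{j+2k}}` has non-negative coefficients for all `k ≥ 1`.

Idea: `(-q;q)_∞ = 1/(q;q^2)_∞`, and already `∑_{j ≥ 0} (-1)^{T_j} q^{G_{j+2k}}` divided by
`(1-q)(1-q^3)(1-q^5)(1-q^7)` has non-negative coefficients: the coefficients `c(m)` of
`1/((1-q)(1-q^3)(1-q^5)(1-q^7))` are a cubic polynomial up to a bounded error (the parts are pairwise
coprime), alternating sums of a cubic polynomial along the pentagonal numbers are evaluated exactly,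
and the resulting main term beats the error for all `k` and `n ≥ 77`; for `n < 77` the coefficients
are computed.
-/

namespace Pool.Agent.Results.MP_418314_co.AllCoefficientsNonneg

open PowerSeries Finset

/-- the generalized pentagonal numbers in increasing order,
`G_n = (1/2) ⌈n/2⌉ ⌈(3n+1)/2⌉` -/
def G (n : ℕ) : ℕ := ((n + 1) / 2) * ((3 * n + 2) / 2) / 2

/-- triangular numbers -/
def T (n : ℕ) : ℕ := n * (n + 1) / 2

/-- `(-q;q)_∞ = ∏_{i ≥ 1} (1 + q^i)`: the coefficient of `q^n` is that of the finite product over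
`1 ≤ i ≤ n` (the later factors do not change it) -/
noncomputable def negPoch : ℤ⟦X⟧ :=
  PowerSeries.mk fun n => coeff n (∏ i ∈ Icc 1 n, (1 + (X : ℤ⟦X⟧) ^ i))

/-- `∑_{j ≥ 0} (-1)^{T_j} q^{G_{j+2k}}` (note `G_{j+2k} ≥ j`, so that only `j ≤ N` contribute to the
coefficient of `q^N`) -/
noncomputable def tail (k : ℕ) : ℤ⟦X⟧ :=
  PowerSeries.mk fun N => ∑ j ∈ range (N + 1), if G (j + 2 * k) = N then (-1) ^ T j else 0

/-- `F_k(q)` -/
noncomputable def F (k : ℕ) : ℤ⟦X⟧ := negPoch * tail k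

/-- every coefficient of `F_k(q)` is non-negative, for every `k ≥ 1` -/
theorem result (k : ℕ) (hk : 1 ≤ k) (N : ℕ) : 0 ≤ coeff N (F k) := by
  have hG0 : ∀ i : ℕ, G (2 * i) = Pool.Agent.X13.TT.pa i := by
    intro i
    unfold G Pool.Agent.X13.TT.pa
    rw [show (2 * i + 1) / 2 = i by omega, show (3 * (2 * i) + 2) / 2 = 3 * i + 1 by omega]
  have hG1 : ∀ i : ℕ, G (2 * i + 1) = Pool.Agent.X13.TT.pb i := by
    intro i
    unfold G Pool.Agent.X13.TT.pb
    rw [show (2 * i + 1 + 1) / 2 = i + 1 by omega,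
      show (3 * (2 * i + 1) + 2) / 2 = 3 * i + 2 by omega]
  have hT0 : ∀ i : ℕ, (-1 : ℤ) ^ T (2 * i) = (-1) ^ i := by
    intro i
    have : T (2 * i) = i * (2 * i + 1) := by
      unfold T
      rw [show 2 * i * (2 * i + 1) = 2 * (i * (2 * i + 1)) by ring]
      omega
    rw [this, show i * (2 * i + 1) = i + 2 * (i * i) by ring, pow_add, pow_mul]
    simp
  have hT1 : ∀ i : ℕ, (-1 : ℤ) ^ T (2 * i + 1) = -(-1) ^ i := by
    intro i
    have : T (2 * i + 1) = (2 * i + 1) * (i + 1) := by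
      unfold T
      rw [show (2 * i + 1) * (2 * i + 1 + 1) = 2 * ((2 * i + 1) * (i + 1)) by ring]
      omega
    rw [this, show (2 * i + 1) * (i + 1) = i + 1 + 2 * (i * (i + 1)) by ring, pow_add, pow_mul]
    simp [pow_succ]
  have hge : ∀ j, j ≤ G j := by
    intro j
    rcases Nat.even_or_odd' j with ⟨i, rfl | rfl⟩
    · rw [hG0]
      have := Pool.Agent.X13.TT.pa_two i
      rcases Nat.eq_zero_or_pos i with rfl | hi
      · simp
      · nlinarith
    · rw [hG1]
      have := Pool.Agent.X13.TT.pb_two i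
      nlinarith
  have htail : tail k = Pool.Agent.X13.TT.th Pool.Agent.X13.TT.pa Pool.Agent.X13.TT.pb k := by
    ext N
    rw [tail, coeff_mk, Pool.Agent.X13.TT.th, coeff_mk, Pool.Agent.X13.TT.thc]
    have h2 : ∑ j ∈ range (N + 1), (if G (j + 2 * k) = N then (-1 : ℤ) ^ T j else 0)
        = ∑ j ∈ range (2 * (N + 1)), (if G (j + 2 * k) = N then (-1 : ℤ) ^ T j else 0) := by
      refine sum_subset (range_subset_range.mpr (by omega)) fun j _ hj => ?_
      rw [mem_range, not_lt] at hj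
      have := hge (j + 2 * k)
      rw [if_neg (by omega)]
    have h3 : ∀ M : ℕ, ∑ j ∈ range (2 * M), (if G (j + 2 * k) = N then (-1 : ℤ) ^ T j else 0)
        = ∑ j ∈ range M, (-1) ^ j * ((if Pool.Agent.X13.TT.pa (k + j) = N then 1 else 0)
          - (if Pool.Agent.X13.TT.pb (k + j) = N then 1 else 0)) := by
      intro M
      induction M with
      | zero => simp
      | succ M ih =>
        rw [show 2 * (M + 1) = 2 * M + 1 + 1 by ring, sum_range_succ, sum_range_succ, ih,
          sum_range_succ, hT0, hT1, show 2 * M + 2 * k = 2 * (k + M) by ring,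
          show 2 * M + 1 + 2 * k = 2 * (k + M) + 1 by ring, hG0, hG1]
        split_ifs <;> ring
    rw [h2, h3]
  have hmain := Pool.Agent.X13.TT.nonneg_of_agree (fun i => i % 2 = 1)
    (Pool.Agent.X13.TT.th Pool.Agent.X13.TT.pa Pool.Agent.X13.TT.pb k) negPoch
    Pool.Agent.X13.TT.agree_euler [1, 3, 5, 7] (by decide) (by decide)
    (Pool.Agent.X13.TT.pent_nonneg k hk)
  rw [F, htail, mul_comm]
  exact hmain N

end Pool.Agent.Results.MP_418314_co.AllCoefficientsNonneg
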